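import Pool.Agent.Helper15.VW.M1

/-!
VW-M3: number of forms over `ZMod p` of index at least `k` on a hyperplane.
-/

open Polynomial Finset

namespace Pool.Agent.Helper12.VW

namespace M3

lemma coeff_toPoly3 {R : Type*} [Semiring R] {n : ℕ} (a : Fin (n + 1) → R)
    (i : Fin (n + 1)) : (toPoly a).coeff i = a i := by
  classical
  unfold toPoly
  rw [finsetSum_coeff, Finset.sum_eq_single i]
  · simp [coeff_C_mul, coeff_X_pow]
  · intro j _ hj
    have : (i : ℕ) ≠ (j : ℕ) := fun h => hj (Fin.ext h.symm)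
    simp [coeff_C_mul, coeff_X_pow, this]
  · intro h
    exact absurd (Finset.mem_univ _) h

lemma toPoly_inj3 {R : Type*} [Semiring R] {n : ℕ} {a b : Fin (n + 1) → R}
    (h : toPoly a = toPoly b) : a = b := by
  funext i
  rw [← coeff_toPoly3 a i, h, coeff_toPoly3]

/-- the polynomials of a given type -/
def TT (n p : ℕ) [Fact p.Prime] (d : Fin n → ℕ) : Set (Fin (n + 1) → ZMod p) :=
  {v | ∃ G : Fin n → (ZMod p)[X], (∀ j, (G j).natDegree ≤ d j) ∧
    (∀ j : Fin n, 0 < (j : ℕ) → (G j).Monic) ∧ toPoly v = ∏ j : Fin n, G j ^ ((j : ℕ) + 1)}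

/-- the polynomials of a given type, full degrees -/
def TF (n p : ℕ) [Fact p.Prime] (d : Fin n → ℕ) : Set (Fin (n + 1) → ZMod p) :=
  {v | ∃ G : Fin n → (ZMod p)[X], (∀ j, (G j).natDegree ≤ d j) ∧
    (∀ j : Fin n, 0 < (j : ℕ) → (G j).Monic ∧ (G j).natDegree = d j) ∧
    toPoly v = ∏ j : Fin n, G j ^ ((j : ℕ) + 1)}

lemma ncard_le_card3 {α β : Type*} [Finite β] (S : Set α) (f : α → β)
    (hf : Set.InjOn f S) : S.ncard ≤ Nat.card β := by
  rw [← Set.ncard_univ]
  exact Set.ncard_le_ncard_of_injOn f (fun _ _ => Set.mem_univ _) hf (Set.toFinite _)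

lemma TT_card (n p : ℕ) [Fact p.Prime] (hn : 1 ≤ n) (d : Fin n → ℕ) (hd : ∀ j, d j ≤ n) :
    (TT n p d).ncard ≤ (n + 1) ^ n * p ^ (∑ j, d j + 1) := by
  classical
  choose! G hG using (fun (v : Fin (n + 1) → ZMod p) (hv : v ∈ TT n p d) => hv)
  let code : (Fin (n + 1) → ZMod p) →
      ZMod p × (∀ j : Fin n, Fin (n + 1) × (Fin (d j) → ZMod p)) := fun v =>
    ((G v ⟨0, by omega⟩).coeff (d ⟨0, by omega⟩),
      fun j => (Fin.ofNat (n + 1) (G v j).natDegree, fun i => (G v j).coeff i))
  have hinj : Set.InjOn code (TT n p d) := by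
    intro v hv w hw hvw
    obtain ⟨h1, h2, h3⟩ := hG v hv
    obtain ⟨h1', h2', h3'⟩ := hG w hw
    have e1 : (G v ⟨0, by omega⟩).coeff (d ⟨0, by omega⟩) =
        (G w ⟨0, by omega⟩).coeff (d ⟨0, by omega⟩) := congrArg Prod.fst hvw
    have e2 : ∀ j, Fin.ofNat (n + 1) (G v j).natDegree =
        Fin.ofNat (n + 1) (G w j).natDegree := fun j =>
      congrArg Prod.fst (congrFun (congrArg Prod.snd hvw) j)
    have e3 : ∀ j, ∀ i : Fin (d j), (G v j).coeff i = (G w j).coeff i := fun j i =>
      congrFun (congrArg Prod.snd (congrFun (congrArg Prod.snd hvw) j)) i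
    have e4 : ∀ j, (G v j).natDegree = (G w j).natDegree := by
      intro j
      have := congrArg Fin.val (e2 j)
      simp only [Fin.ofNat] at this
      rw [Nat.mod_eq_of_lt, Nat.mod_eq_of_lt] at this
      · exact this
      · have := h1' j; have := hd j; omega
      · have := h1 j; have := hd j; omega
    have key : ∀ j, G v j = G w j := by
      intro j
      ext i
      rcases Nat.lt_trichotomy i (d j) with hi | hi | hi
      · exact e3 j ⟨i, hi⟩
      · by_cases hj : (j : ℕ) = 0
        · have : j = ⟨0, by omega⟩ := Fin.ext hj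
          rw [hi, this]
          exact e1
        · rcases Nat.lt_or_ge (G v j).natDegree i with h5 | h5
          · rw [coeff_eq_zero_of_natDegree_lt h5, coeff_eq_zero_of_natDegree_lt (e4 j ▸ h5)]
          · have h6 : i = (G v j).natDegree := by have := h1 j; omega
            have h7 : i = (G w j).natDegree := by rw [← e4 j]; exact h6
            have h8 : (G v j).coeff i = 1 := by
              rw [h6]; exact (h2 j (by omega)).coeff_natDegree
            have h9 : (G w j).coeff i = 1 := by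
              rw [h7]; exact (h2' j (by omega)).coeff_natDegree
            rw [h8, h9]
      · rw [coeff_eq_zero_of_natDegree_lt (lt_of_le_of_lt (h1 j) hi),
          coeff_eq_zero_of_natDegree_lt (lt_of_le_of_lt (h1' j) hi)]
    apply toPoly_inj3
    rw [h3, h3']
    exact Finset.prod_congr rfl (fun j _ => by rw [key j])
  have h := ncard_le_card3 (TT n p d) code hinj
  refine h.trans ?_
  rw [Nat.card_prod, Nat.card_pi]
  have h6 : ∀ j : Fin n, Nat.card (Fin (n + 1) × (Fin (d j) → ZMod p)) = (n + 1) * p ^ d j := by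
    intro j
    rw [Nat.card_prod, Nat.card_fun, Nat.card_zmod, Nat.card_fin, Nat.card_fin]
  rw [Finset.prod_congr rfl (fun j _ => h6 j), Nat.card_zmod, Finset.prod_mul_distrib,
    Finset.prod_const, Finset.card_univ, Fintype.card_fin,
    Finset.prod_pow_eq_pow_sum, pow_succ]
  apply le_of_eq
  ring

/-- Zeros of a linear functional of a product of powers along a line. -/
lemma line_zeros {F : Type*} [Field F] [Fintype F] [DecidableEq F] (W : F[X] →ₗ[F] F) (n : ℕ)
    (A B : Fin n → F[X]) (h0 : W (∏ j, A j ^ ((j : ℕ) + 1)) ≠ 0) :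
    (Finset.univ.filter fun s : F =>
      W (∏ j, (A j + C s * B j) ^ ((j : ℕ) + 1)) = 0).card ≤ ∑ j : Fin n, ((j : ℕ) + 1) := by
  set Q : F[X][X] := ∏ j, (C (A j) + X * C (B j)) ^ ((j : ℕ) + 1) with hQ
  set D := ∑ j : Fin n, ((j : ℕ) + 1) with hD
  have hdeg : Q.natDegree ≤ D := by
    rw [hQ, hD]
    refine (natDegree_prod_le _ _).trans (sum_le_sum fun j _ => ?_)
    refine natDegree_pow_le.trans ?_
    have : (C (A j) + X * C (B j)).natDegree ≤ 1 := by
      refine (natDegree_add_le _ _).trans (max_le (by simp) ?_)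
      refine natDegree_mul_le.trans ?_
      rw [natDegree_C, add_zero]
      exact natDegree_X_le
    calc ((j : ℕ) + 1) * (C (A j) + X * C (B j)).natDegree ≤ ((j : ℕ) + 1) * 1 :=
          Nat.mul_le_mul_left _ this
      _ = _ := mul_one _
  set q : F[X] := ∑ k ∈ range (D + 1), C (W (Q.coeff k)) * X ^ k with hq
  have heval : ∀ s : F, q.eval s = W (∏ j, (A j + C s * B j) ^ ((j : ℕ) + 1)) := by
    intro s
    have h1 : ∏ j, (A j + C s * B j) ^ ((j : ℕ) + 1) = Q.eval (C s) := by
      rw [hQ, eval_prod]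
      refine prod_congr rfl fun j _ => ?_
      rw [eval_pow, eval_add, eval_C, eval_mul, eval_X, eval_C]
    rw [h1, eval_eq_sum_range' (Nat.lt_succ_of_le hdeg), map_sum, hq, eval_finsetSum]
    refine sum_congr rfl fun k _ => ?_
    rw [← C_pow, mul_comm (Q.coeff k), ← smul_eq_C_mul (s ^ k), map_smul, smul_eq_mul,
      eval_mul, eval_C, eval_pow, eval_X, mul_comm]
  have hq0 : q ≠ 0 := by
    intro h
    have h1 := heval 0
    rw [h] at h1
    simp only [eval_zero, map_zero, zero_mul, add_zero] at h1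
    exact h0 h1.symm
  have hqd : q.natDegree ≤ D := by
    rw [hq]
    refine natDegree_sum_le_of_forall_le _ _ fun k hk => ?_
    refine (natDegree_C_mul_X_pow_le _ _).trans ?_
    have := mem_range.mp hk
    omega
  calc _ ≤ q.roots.toFinset.card := by
        apply card_le_card
        intro s hs
        rw [mem_filter] at hs
        rw [Multiset.mem_toFinset, mem_roots hq0, IsRoot.def, heval]
        exact hs.2
    _ ≤ Multiset.card q.roots := Multiset.toFinset_card_le _
    _ ≤ q.natDegree := card_roots' _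
    _ ≤ D := hqd

/-- Counting by lines through a point. -/
lemma zeros_card {F U : Type*} [Field F] [Fintype F] [DecidableEq F] [AddCommGroup U] [Module F U]
    [Fintype U] [DecidableEq U] (Z : Finset U) (u0 : U) (D : ℕ)
    (hline : ∀ u : U, (Finset.univ.filter fun s : F => u0 + s • u ∈ Z).card ≤ D) :
    (Fintype.card F - 1) * Z.card ≤ D * Fintype.card U := by
  have h1 : ((Finset.univ.filter fun s : F => s ≠ 0) ×ˢ Z).card ≤
      ((Finset.univ : Finset U).sigma
        (fun u => Finset.univ.filter fun s : F => u0 + s • u ∈ Z)).card := by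
    apply card_le_card_of_injOn (fun x => ⟨x.1⁻¹ • (x.2 - u0), x.1⟩)
    · rintro ⟨s, z⟩ hx
      rw [mem_coe, mem_product, mem_filter] at hx
      rw [mem_coe, mem_sigma, mem_filter]
      refine ⟨mem_univ _, mem_univ _, ?_⟩
      simp only
      rw [smul_smul, mul_inv_cancel₀ hx.1.2, one_smul]
      simpa using hx.2
    · rintro ⟨s, z⟩ hx ⟨s', z'⟩ hx' h
      rw [mem_coe, mem_product, mem_filter] at hx hx'
      simp only [Sigma.mk.injEq, heq_eq_eq] at h
      obtain ⟨h2, rfl⟩ := h
      have h3 := congrArg (fun y => s • y) h2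
      simp only [smul_smul, mul_inv_cancel₀ hx.1.2, one_smul] at h3
      have h4 : z = z' := sub_left_injective h3
      rw [h4]
  rw [card_product, card_sigma] at h1
  have h2 : (Finset.univ.filter fun s : F => s ≠ 0).card = Fintype.card F - 1 := by
    rw [filter_ne', card_erase_of_mem (mem_univ _), card_univ]
  rw [h2] at h1
  calc _ ≤ _ := h1
    _ ≤ ∑ _u : U, D := sum_le_sum fun u _ => hline u
    _ = D * Fintype.card U := by rw [sum_const, card_univ, smul_eq_mul, mul_comm]

/-- The polynomial with given coefficients. -/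
noncomputable def L {F : Type*} [Field F] (m : ℕ) (c : Fin m → F) : F[X] :=
  ∑ i : Fin m, C (c i) * X ^ (i : ℕ)

lemma L_add {F : Type*} [Field F] (m : ℕ) (c c' : Fin m → F) (s : F) :
    L m (c + s • c') = L m c + C s * L m c' := by
  simp only [L, Pi.add_apply, Pi.smul_apply, smul_eq_mul, map_add, map_mul, add_mul,
    sum_add_distrib, mul_sum, mul_assoc]

lemma L_coeff {F : Type*} [Field F] (m : ℕ) (f : F[X]) (h : f.degree < m) :
    L m (fun i => f.coeff i) = f := by
  have h1 := sum_fin (fun i a => C a * X ^ i) (by simp) h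
  rw [L, h1, sum_C_mul_X_pow_eq]

lemma exists_base {n p : ℕ} [Fact p.Prime] (hnp : n < p) (w : Fin (n + 1) → ZMod p)
    (hw : w ≠ 0) : ∃ r : ZMod p, ∑ i : Fin (n + 1), w i * ((X + C r) ^ n : (ZMod p)[X]).coeff i ≠ 0 := by
  classical
  obtain ⟨i0, hi0⟩ := Function.ne_iff.mp hw
  set R : (ZMod p)[X] := ∑ i : Fin (n + 1), C (w i * (n.choose i : ZMod p)) * X ^ (n - (i : ℕ))
    with hR
  have hR0 : R ≠ 0 := by
    intro h
    have h1 := congrArg (fun f => coeff f (n - (i0 : ℕ))) h
    simp only [coeff_zero] at h1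
    rw [hR, finsetSum_coeff, Finset.sum_eq_single i0] at h1
    · rw [coeff_C_mul, coeff_X_pow, if_pos rfl, mul_one] at h1
      rcases mul_eq_zero.mp h1 with h2 | h2
      · exact hi0 h2
      · rw [ZMod.natCast_eq_zero_iff] at h2
        have h3 : p.Coprime (n.choose i0) := (Fact.out : p.Prime).coprime_choose_of_lt hnp
          (Nat.lt_succ_iff.mp i0.2)
        have h4 : p ∣ Nat.gcd p (n.choose i0) := Nat.dvd_gcd dvd_rfl h2
        rw [h3] at h4
        exact (Fact.out : p.Prime).one_lt.ne' (Nat.dvd_one.mp h4)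
    · intro j _ hj
      rw [coeff_C_mul, coeff_X_pow, if_neg, mul_zero]
      intro h2
      apply hj
      have := j.2
      have := i0.2
      exact Fin.ext (by omega)
    · intro h2
      exact absurd (mem_univ _) h2
  have hdeg : R.natDegree ≤ n := by
    rw [hR]
    refine natDegree_sum_le_of_forall_le _ _ fun i _ => ?_
    exact (natDegree_C_mul_X_pow_le _ _).trans (Nat.sub_le _ _)
  obtain ⟨r, hr⟩ := exists_eval_ne_zero_of_natDegree_lt_card R hR0 (by
    rw [Cardinal.mk_fintype, ZMod.card]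
    exact_mod_cast lt_of_le_of_lt hdeg hnp)
  refine ⟨r, ?_⟩
  rw [hR, eval_finsetSum] at hr
  convert hr using 1
  refine sum_congr rfl fun i _ => ?_
  rw [coeff_X_add_C_pow]
  simp
  ring

/-- Full degrees: the hyperplane section. -/
lemma TF_card (n p : ℕ) [Fact p.Prime] (hn : 1 ≤ n) (hnp : n < p) (d : Fin n → ℕ)
    (hd : ∑ j : Fin n, ((j : ℕ) + 1) * d j = n) (w : Fin (n + 1) → ZMod p) (hw : w ≠ 0) :
    {v ∈ TF n p d | ∑ i, w i * v i = 0}.ncard ≤
      2 * (∑ j : Fin n, ((j : ℕ) + 1)) * p ^ (∑ j, d j) := by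
  classical
  have hp : p.Prime := Fact.out
  set D := ∑ j : Fin n, ((j : ℕ) + 1) with hD
  -- parameters
  set dd : Fin n → ℕ := fun j => if (j : ℕ) = 0 then d j + 1 else d j with hdd
  set lead : Fin n → (ZMod p)[X] := fun j => if (j : ℕ) = 0 then 0 else X ^ (d j) with hlead
  let G : (∀ j : Fin n, Fin (dd j) → ZMod p) → Fin n → (ZMod p)[X] :=
    fun u j => L (dd j) (u j) + lead j
  let W : (ZMod p)[X] →ₗ[ZMod p] ZMod p := ∑ i : Fin (n + 1), w i • lcoeff (ZMod p) (i : ℕ)
  have hW : ∀ f : (ZMod p)[X], W f = ∑ i : Fin (n + 1), w i * f.coeff i := by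
    intro f
    simp only [W, LinearMap.sum_apply, LinearMap.smul_apply, lcoeff_apply, smul_eq_mul]
  set Z : Finset (∀ j : Fin n, Fin (dd j) → ZMod p) :=
    Finset.univ.filter fun u => W (∏ j, G u j ^ ((j : ℕ) + 1)) = 0 with hZ
  -- recover a polynomial from its coefficients
  have hrec : ∀ (j : Fin n) (g : (ZMod p)[X]), g.natDegree ≤ d j →
      (0 < (j : ℕ) → g.Monic ∧ g.natDegree = d j) →
      L (dd j) (fun i => (g - lead j).coeff i) + lead j = g := by
    intro j g hg hg'
    rw [L_coeff, sub_add_cancel]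
    by_cases hj : (j : ℕ) = 0
    · simp only [hdd, hlead, if_pos hj, sub_zero]
      refine lt_of_le_of_lt degree_le_natDegree ?_
      exact_mod_cast Nat.lt_succ_of_le hg
    · simp only [hdd, hlead, if_neg hj]
      obtain ⟨h1, h2⟩ := hg' (Nat.pos_of_ne_zero hj)
      have h3 : g.degree = d j := by rw [degree_eq_natDegree h1.ne_zero, h2]
      have h4 := degree_sub_lt_left (p := g) (q := X ^ d j) (by rw [h3, degree_X_pow]) h1.ne_zero
        (by rw [h1.leadingCoeff, leadingCoeff_X_pow])
      rwa [h3] at h4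
  -- the base point
  obtain ⟨r, hr⟩ := exists_base hnp w hw
  set u0 : ∀ j : Fin n, Fin (dd j) → ZMod p :=
    fun j i => ((X + C r) ^ d j - lead j).coeff i with hu0
  have hG0 : ∀ j, G u0 j = (X + C r) ^ d j := by
    intro j
    have h1 : ((X + C r : (ZMod p)[X]) ^ d j).natDegree = d j := natDegree_pow_X_add_C _ _
    exact hrec j _ h1.le fun _ => ⟨(monic_X_add_C r).pow _, h1⟩
  have hbase : W (∏ j, G u0 j ^ ((j : ℕ) + 1)) ≠ 0 := by
    have h1 : ∏ j : Fin n, G u0 j ^ ((j : ℕ) + 1) = (X + C r) ^ n := by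
      rw [prod_congr rfl fun j _ => by rw [hG0 j, ← pow_mul], prod_pow_eq_pow_sum]
      congr 1
      refine Eq.trans ?_ hd
      exact sum_congr rfl fun j _ => mul_comm _ _
    rw [h1, hW]
    exact hr
  -- counting
  have hcount := zeros_card (F := ZMod p) Z u0 D (fun u => by
    refine le_trans (card_le_card ?_) (line_zeros W n (G u0) (fun j => L (dd j) (u j)) hbase)
    intro s hs
    rw [mem_filter] at hs ⊢
    refine ⟨mem_univ _, ?_⟩
    have h1 := (mem_filter.mp hs.2).2
    have h2 : ∀ j, G (u0 + s • u) j = G u0 j + C s * L (dd j) (u j) := by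
      intro j
      simp only [G, Pi.add_apply, Pi.smul_apply]
      have h3 := L_add (dd j) (u0 j) (u j) s
      have h4 : (u0 j + s • u j) = fun i => (u0 j + s • u j) i := rfl
      rw [h3]
      ring
    rw [prod_congr rfl fun j _ => by rw [h2 j]] at h1
    exact h1)
  rw [ZMod.card, Fintype.card_pi] at hcount
  have hU : ∏ j : Fin n, Fintype.card (Fin (dd j) → ZMod p) = p ^ (∑ j, d j + 1) := by
    rw [prod_congr rfl fun j _ => by rw [Fintype.card_fun, ZMod.card, Fintype.card_fin],
      prod_pow_eq_pow_sum]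
    congr 1
    have h1 : ∀ j : Fin n, dd j = d j + if j = ⟨0, by omega⟩ then 1 else 0 := by
      intro j
      simp only [hdd, Fin.ext_iff]
      split_ifs <;> simp
    rw [sum_congr rfl fun j _ => h1 j, sum_add_distrib]
    simp
  rw [hU] at hcount
  have hZc : Z.card ≤ 2 * D * p ^ (∑ j, d j) := by
    have h1 : p ≤ 2 * (p - 1) := by have := hp.two_le; omega
    have h2 : p * Z.card ≤ p * (2 * D * p ^ (∑ j, d j)) := by
      calc p * Z.card ≤ 2 * (p - 1) * Z.card := Nat.mul_le_mul_right _ h1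
        _ = 2 * ((p - 1) * Z.card) := by ring
        _ ≤ 2 * (D * p ^ (∑ j, d j + 1)) := Nat.mul_le_mul_left _ hcount
        _ = _ := by rw [pow_succ]; ring
    exact Nat.le_of_mul_le_mul_left h2 hp.pos
  refine le_trans ?_ hZc
  -- injection
  choose! g hg using (fun (v : Fin (n + 1) → ZMod p) (hv : v ∈ TF n p d) => hv)
  rw [← Set.ncard_coe_finset]
  apply Set.ncard_le_ncard_of_injOn
    (fun v => (fun j i => (g v j - lead j).coeff i : ∀ j : Fin n, Fin (dd j) → ZMod p))
  · intro v hv
    obtain ⟨h1, h2, h3⟩ := hg v hv.1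
    rw [mem_coe, hZ, mem_filter]
    refine ⟨mem_univ _, ?_⟩
    have h4 : ∏ j : Fin n, G (fun j i => (g v j - lead j).coeff i) j ^ ((j : ℕ) + 1) =
        toPoly v := by
      rw [h3]
      exact prod_congr rfl fun j _ => by
        have := hrec j (g v j) (h1 j) (h2 j)
        simp only [G]
        rw [this]
    rw [h4, hW, ← hv.2]
    exact sum_congr rfl fun i _ => by rw [coeff_toPoly3]
  · intro v hv v' hv' h
    obtain ⟨h1, h2, h3⟩ := hg v hv.1
    obtain ⟨h1', h2', h3'⟩ := hg v' hv'.1
    apply toPoly_inj3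
    rw [h3, h3']
    refine prod_congr rfl fun j _ => ?_
    have h4 := congrFun h j
    simp only at h4
    have h5 := hrec j (g v j) (h1 j) (h2 j)
    have h6 := hrec j (g v' j) (h1' j) (h2' j)
    rw [← h5, ← h6, h4]

end M3

open M3 in
/-- VW-M3 (uses M1) -/
theorem card_Ind_hyperplane_le (n : ℕ) (hn : 1 ≤ n) : ∃ c : ℕ, ∀ (p : ℕ) [Fact p.Prime] (k : ℕ),
    n < p → k ≤ n → ∀ w : Fin (n + 1) → ZMod p, w ≠ 0 →
    {v ∈ Ind n p k | ∑ i, w i * v i = 0}.ncard ≤ c * p ^ (n - k) := by
  classical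
  set D := ∑ j : Fin n, ((j : ℕ) + 1) with hD
  refine ⟨(n + 1) ^ n * (2 * D + n * (n + 1) ^ n) + 1, ?_⟩
  intro p hp k hnp hk w hw
  have hp1 : 1 ≤ p := hp.out.one_lt.le
  set DD : Finset (Fin n → Fin (n + 1)) :=
    Finset.univ.filter (fun d => ∑ j, (d j : ℕ) + k ≤ n ∧ ∑ j : Fin n, ((j : ℕ) + 1) * (d j : ℕ) = n)
    with hDD
  set low : (Fin n → Fin (n + 1)) → Set (Fin (n + 1) → ZMod p) := fun d =>
    ⋃ j ∈ (Finset.univ.filter fun j : Fin n => 0 < (j : ℕ) ∧ 0 < (d j : ℕ)),
      TT n p (fun i => if i = j then (d i : ℕ) - 1 else d i) with hlow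
  have hsub : {v ∈ Ind n p k | ∑ i, w i * v i = 0} ⊆ {0} ∪ ⋃ d ∈ DD,
      ({v ∈ TF n p (fun j => (d j : ℕ)) | ∑ i, w i * v i = 0} ∪ low d) := by
    rintro v ⟨hv, hwv⟩
    by_cases hv0 : v = 0
    · left; exact hv0
    · right
      obtain ⟨d, G, h1, h2, h3, h4, h5⟩ := exists_type hn k v hv hv0
      have hdn : ∀ j, d j < n + 1 := by
        intro j
        have : d j ≤ ∑ j, d j := Finset.single_le_sum (fun _ _ => Nat.zero_le _)
          (Finset.mem_univ j)
        omega
      simp only [Set.mem_iUnion]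
      refine ⟨fun j => ⟨d j, hdn j⟩, ?_, ?_⟩
      · rw [hDD, Finset.mem_filter]
        exact ⟨Finset.mem_univ _, h2, h1⟩
      · by_cases hall : ∀ j : Fin n, 0 < (j : ℕ) → (G j).natDegree = d j
        · left
          exact ⟨⟨G, h3, fun j hj => ⟨h4 j hj, hall j hj⟩, h5⟩, hwv⟩
        · right
          push Not at hall
          obtain ⟨j, hj, hne⟩ := hall
          have hlt : (G j).natDegree < d j := lt_of_le_of_ne (h3 j) hne
          simp only [hlow, Set.mem_iUnion]
          refine ⟨j, ?_, G, ?_, h4, h5⟩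
          · rw [mem_filter]
            exact ⟨mem_univ _, hj, by omega⟩
          · intro i
            by_cases hi : i = j
            · subst hi
              simp only [if_true]
              omega
            · simp only [if_neg hi]
              exact h3 i
  have hlowc : ∀ d ∈ DD, (low d).ncard ≤ n * ((n + 1) ^ n * p ^ (n - k)) := by
    intro d hd
    rw [hDD, mem_filter] at hd
    refine (Finset.set_ncard_biUnion_le _ _).trans ?_
    refine (Finset.sum_le_card_nsmul _ _ ((n + 1) ^ n * p ^ (n - k)) ?_).trans ?_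
    · intro j hj
      rw [mem_filter] at hj
      refine (TT_card n p hn _ ?_).trans ?_
      · intro i
        have := (d i).isLt
        split_ifs <;> omega
      · refine Nat.mul_le_mul_left _ (Nat.pow_le_pow_right hp1 ?_)
        have h1 : ∑ i, (if i = j then (d i : ℕ) - 1 else (d i : ℕ)) + 1 = ∑ i, (d i : ℕ) := by
          have h2 : ∀ i, (d i : ℕ) = (if i = j then (d i : ℕ) - 1 else (d i : ℕ)) +
              if i = j then 1 else 0 := by
            intro i
            split_ifs with h
            · subst h; omega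
            · rfl
          conv_rhs => rw [sum_congr rfl fun i _ => h2 i]
          rw [sum_add_distrib]
          simp
        have := hd.2.1
        omega
    · rw [smul_eq_mul]
      refine Nat.mul_le_mul_right _ ?_
      refine (card_le_univ _).trans ?_
      rw [Fintype.card_fin]
  have hTF : ∀ d ∈ DD, {v ∈ TF n p (fun j => (d j : ℕ)) | ∑ i, w i * v i = 0}.ncard ≤
      2 * D * p ^ (n - k) := by
    intro d hd
    rw [hDD, mem_filter] at hd
    refine (TF_card n p hn hnp (fun j => (d j : ℕ)) hd.2.2 w hw).trans ?_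
    refine Nat.mul_le_mul_left _ (Nat.pow_le_pow_right hp1 ?_)
    have := hd.2.1
    omega
  have h3 : DD.card ≤ (n + 1) ^ n := by
    refine (Finset.card_le_univ DD).trans ?_
    rw [Fintype.card_fun, Fintype.card_fin, Fintype.card_fin]
  have h4 : 1 ≤ p ^ (n - k) := Nat.one_le_pow _ _ hp1
  have h1 : {v ∈ Ind n p k | ∑ i, w i * v i = 0}.ncard ≤ 1 + ∑ d ∈ DD,
      ({v ∈ TF n p (fun j => (d j : ℕ)) | ∑ i, w i * v i = 0} ∪ low d).ncard := by
    refine (Set.ncard_le_ncard hsub (Set.toFinite _)).trans ?_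
    refine (Set.ncard_union_le _ _).trans ?_
    rw [Set.ncard_singleton]
    refine Nat.add_le_add_left ?_ 1
    exact Finset.set_ncard_biUnion_le DD _
  calc _ ≤ _ := h1
    _ ≤ 1 + ∑ _d ∈ DD, (2 * D * p ^ (n - k) + n * ((n + 1) ^ n * p ^ (n - k))) := by
        refine Nat.add_le_add_left (Finset.sum_le_sum fun d hd => ?_) 1
        exact (Set.ncard_union_le _ _).trans (Nat.add_le_add (hTF d hd) (hlowc d hd))
    _ = 1 + DD.card * (2 * D * p ^ (n - k) + n * ((n + 1) ^ n * p ^ (n - k))) := by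
        rw [Finset.sum_const, smul_eq_mul]
    _ ≤ p ^ (n - k) + (n + 1) ^ n * (2 * D * p ^ (n - k) + n * ((n + 1) ^ n * p ^ (n - k))) :=
        Nat.add_le_add h4 (Nat.mul_le_mul_right _ h3)
    _ = _ := by ring

end Pool.Agent.Helper12.VW
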