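import Pool.Agent.Helper88.VW.LargePrimesOf
import Pool.Agent.Helper79.VW.Elim
import Pool.Agent.Helper11.VW.FewConst

/-!
Polynomials of index at least two modulo many large primes.
-/

open Polynomial NumberField

namespace Pool.Agent.Helper12.VW

/-- VW-E3 (uses E1, E2): large prime factors. -/
theorem large_primes (n : ℕ) (hn : 3 ≤ n) (η : ℝ) (hη : 0 < η) : ∃ C : ℝ, 0 < C ∧
    ∀ H : ℕ, 1 ≤ H →
      ({a ∈ (Box n H : Set (Fin (n + 1) → ℤ)) | a (Fin.last n) ≠ 0 ∧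
        ∃ q : ℕ, Squarefree q ∧ (H : ℝ) ^ (1 + η) ≤ q ∧
          ∀ p ∈ q.primeFactors, n < p ∧ (H : ℝ) ^ η ≤ p ∧ InInd a p 2}.ncard : ℝ)
        ≤ C * (H : ℝ) ^ n := by
  obtain ⟨m, rfl⟩ := Nat.exists_eq_add_of_le' hn
  exact large_primes_of m (exists_elim (m + 3) hn)
    (fun p a hp => few_constant_terms (m + 3) hn p hp a) η hη

end Pool.Agent.Helper12.VW
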