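import Pool.Agent.Helper12.VW.Defs

/-!
Auxiliary counting lemmas for large moduli: growth of polynomials, number of large prime factors,
residue classes in an interval, sums of greatest common divisors.
-/

open Finset

namespace Pool.Agent.Helper12.VW

namespace LP

/-- growth of integer polynomials -/
lemma abs_eval_le {n : ℕ} (E : MvPolynomial (Fin n) ℤ) : ∃ C D : ℕ, ∀ H : ℕ, 1 ≤ H →
    ∀ x : Fin n → ℤ, (∀ i, |x i| ≤ H) → |MvPolynomial.eval x E| ≤ C * (H : ℤ) ^ D := by
  refine ⟨(∑ m ∈ E.support, (E.coeff m).natAbs), E.totalDegree, fun H hH x hx => ?_⟩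
  rw [MvPolynomial.eval_eq']
  calc |∑ m ∈ E.support, E.coeff m * ∏ i, x i ^ m i|
      ≤ ∑ m ∈ E.support, |E.coeff m * ∏ i, x i ^ m i| := abs_sum_le_sum_abs _ _
    _ ≤ ∑ m ∈ E.support, ((E.coeff m).natAbs : ℤ) * (H : ℤ) ^ E.totalDegree := by
      apply sum_le_sum
      intro m hm
      rw [abs_mul, Int.natCast_natAbs]
      apply mul_le_mul_of_nonneg_left _ (abs_nonneg _)
      rw [abs_prod]
      calc ∏ i, |x i ^ m i| ≤ ∏ i, (H : ℤ) ^ (m i) := by
            apply prod_le_prod
            · intro i _; exact abs_nonneg _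
            · intro i _
              rw [abs_pow]
              exact pow_le_pow_left₀ (abs_nonneg _) (hx i) _
        _ = (H : ℤ) ^ (∑ i, m i) := prod_pow_eq_pow_sum _ _ _
        _ ≤ (H : ℤ) ^ E.totalDegree := by
            apply pow_le_pow_right₀ (by exact_mod_cast hH)
            have := MvPolynomial.le_totalDegree hm
            rwa [Finsupp.sum_fintype _ _ (fun _ => rfl)] at this
    _ = _ := by rw [← sum_mul]; push_cast; rfl

/-- number of large prime factors -/
lemma card_large_primes (C D : ℕ) (η : ℝ) (hη : 0 < η) : ∃ K : ℕ, ∀ (H : ℕ), 2 ≤ H →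
    ∀ N : ℕ, N ≠ 0 → N ≤ C * H ^ D → ∀ P : Finset ℕ, P ⊆ N.primeFactors →
      (∀ p ∈ P, (H : ℝ) ^ η ≤ p) → P.card ≤ K := by
  refine ⟨⌈(Real.log (C + 1) / Real.log 2 + D) / η⌉₊, fun H hH N hN hNC P hP hPη => ?_⟩
  have hH1 : (2 : ℝ) ≤ H := by exact_mod_cast hH
  have hH0 : (0 : ℝ) < H := by linarith
  have hl2 : 0 < Real.log 2 := Real.log_pos (by norm_num)
  have hlH : Real.log 2 ≤ Real.log H := Real.log_le_log (by norm_num) hH1
  have hlH0 : 0 < Real.log H := by linarith
  have h1 : ((H : ℝ) ^ η) ^ P.card ≤ N := by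
    calc ((H : ℝ) ^ η) ^ P.card ≤ ∏ p ∈ P, (p : ℝ) := by
          rw [← prod_const]
          exact prod_le_prod (fun _ _ => by positivity) hPη
      _ ≤ N := by
          have h2 : ∏ p ∈ P, p ∣ N := by
            calc ∏ p ∈ P, p ∣ ∏ p ∈ N.primeFactors, p := prod_dvd_prod_of_subset _ _ _ hP
              _ ∣ N := Nat.prod_primeFactors_dvd N
          have h3 := Nat.le_of_dvd (Nat.pos_of_ne_zero hN) h2
          have h4 : ((∏ p ∈ P, p : ℕ) : ℝ) ≤ N := by exact_mod_cast h3
          rwa [Nat.cast_prod] at h4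
  have h2 : (N : ℝ) ≤ (C + 1) * (H : ℝ) ^ D := by
    calc (N : ℝ) ≤ C * (H : ℝ) ^ D := by exact_mod_cast hNC
      _ ≤ (C + 1) * (H : ℝ) ^ D := by
        apply mul_le_mul_of_nonneg_right _ (by positivity)
        linarith
  have h3 := Real.log_le_log (by positivity) (h1.trans h2)
  rw [Real.log_pow, Real.log_rpow hH0, Real.log_mul (by positivity) (by positivity),
    Real.log_pow] at h3
  have h4 : Real.log (C + 1) ≤ Real.log (C + 1) / Real.log 2 * Real.log H := by
    have h5 : 0 ≤ Real.log ((C : ℝ) + 1) := Real.log_nonneg (by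
      have : (0 : ℝ) ≤ C := Nat.cast_nonneg _
      linarith)
    calc Real.log (C + 1) = Real.log (C + 1) / Real.log 2 * Real.log 2 := by field_simp
      _ ≤ Real.log (C + 1) / Real.log 2 * Real.log H := by
        apply mul_le_mul_of_nonneg_left hlH (by positivity)
  have h5 : (P.card : ℝ) * η ≤ Real.log (C + 1) / Real.log 2 + D := by
    have h6 : ((P.card : ℝ) * η) * Real.log H ≤
        (Real.log (C + 1) / Real.log 2 + D) * Real.log H := by
      calc ((P.card : ℝ) * η) * Real.log H = (P.card : ℝ) * (η * Real.log H) := by ring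
        _ ≤ Real.log (C + 1) + D * Real.log H := h3
        _ ≤ Real.log (C + 1) / Real.log 2 * Real.log H + D * Real.log H := by linarith
        _ = _ := by ring
    exact le_of_mul_le_mul_right h6 hlH0
  have h6 : (P.card : ℝ) ≤ (Real.log (C + 1) / Real.log 2 + D) / η := by
    rwa [le_div_iff₀ hη]
  exact_mod_cast h6.trans (Nat.le_ceil _)

/-- Integers of an interval with prescribed residue classes. -/
lemma card_residues (H n : ℕ) (Q : Finset ℕ) (hQ : ∀ p ∈ Q, p.Prime)
    (R : ∀ p : ℕ, Set (ZMod p)) (hR : ∀ p ∈ Q, (R p).ncard ≤ n) (S : Finset ℤ)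
    (hS : S ⊆ Finset.Icc (-(H : ℤ)) H) (hSR : ∀ t ∈ S, ∀ p ∈ Q, ((t : ℤ) : ZMod p) ∈ R p) :
    S.card ≤ (4 * (H / ∏ p ∈ Q, p) + 3) * n ^ Q.card := by
  classical
  have hF : ∀ p : ℕ, ∃ F : Finset ℕ, p ∈ Q → F.card ≤ n ∧ ∀ r ∈ R p, r.val ∈ F := by
    intro p
    by_cases hp : p ∈ Q
    · have : Fact p.Prime := ⟨hQ p hp⟩
      refine ⟨(R p).toFinite.toFinset.image ZMod.val, fun _ => ⟨?_, ?_⟩⟩
      · refine card_image_le.trans ?_
        rw [← Set.ncard_eq_toFinset_card]
        exact hR p hp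
      · intro r hr
        exact mem_image_of_mem _ ((Set.Finite.mem_toFinset _).mpr hr)
    · exact ⟨∅, fun h => absurd h hp⟩
  choose F hF using hF
  set M : ℕ := ∏ p ∈ Q, p with hM
  have hM0 : 0 < M := Finset.prod_pos fun p hp => (hQ p hp).pos
  have hmaps : ∀ t ∈ S, (fun p (_ : p ∈ Q) => ((t : ℤ) : ZMod p).val) ∈
      Finset.pi Q F := by
    intro t ht
    rw [Finset.mem_pi]
    intro p hp
    exact (hF p hp).2 _ (hSR t ht p hp)
  have h1 := card_le_mul_card_image_of_maps_to hmaps (4 * (H / M) + 3) ?_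
  · refine h1.trans (Nat.mul_le_mul_left _ ?_)
    rw [Finset.card_pi, ← prod_const]
    exact prod_le_prod' fun p hp => (hF p hp).1
  · intro b hb
    rcases (S.filter fun t => (fun p (_ : p ∈ Q) => ((t : ℤ) : ZMod p).val) = b).eq_empty_or_nonempty
      with h0 | ⟨t0, ht0⟩
    · rw [h0]; simp
    · have hin : ∀ t ∈ S.filter fun t => (fun p (_ : p ∈ Q) => ((t : ℤ) : ZMod p).val) = b,
          (M : ℤ) ∣ t - t0 := by
        intro t ht
        rw [mem_filter] at ht ht0
        rw [hM]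
        push_cast
        apply Finset.prod_dvd_of_coprime
        · intro p hp q hq hpq
          exact Nat.isCoprime_iff_coprime.mpr ((Nat.coprime_primes (hQ p hp) (hQ q hq)).mpr hpq)
        · intro p hp
          have : Fact p.Prime := ⟨hQ p hp⟩
          have h2 := congrFun (congrFun (ht.2.trans ht0.2.symm) p) hp
          have h3 : ((t : ℤ) : ZMod p) = (t0 : ZMod p) := ZMod.val_injective p h2
          have h4 : ((t - t0 : ℤ) : ZMod p) = 0 := by push_cast; rw [h3, sub_self]
          exact (ZMod.intCast_zmod_eq_zero_iff_dvd _ p).mp h4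
      have hinj : Set.InjOn (fun t : ℤ => (t - t0) / (M : ℤ))
          (S.filter fun t => (fun p (_ : p ∈ Q) => ((t : ℤ) : ZMod p).val) = b) := by
        intro t ht t' ht' htt
        obtain ⟨c, hc⟩ := hin t ht
        obtain ⟨c', hc'⟩ := hin t' ht'
        have hM0' : (M : ℤ) ≠ 0 := by exact_mod_cast hM0.ne'
        simp only [hc, hc', Int.mul_ediv_cancel_left _ hM0'] at htt
        rw [htt] at hc
        linarith
      have hsub : (S.filter fun t => (fun p (_ : p ∈ Q) => ((t : ℤ) : ZMod p).val) = b).image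
          (fun t : ℤ => (t - t0) / (M : ℤ)) ⊆
          Finset.Icc (-((2 * (H / M) + 1 : ℕ) : ℤ)) ((2 * (H / M) + 1 : ℕ) : ℤ) := by
        intro c hc
        rw [mem_image] at hc
        obtain ⟨t, ht, rfl⟩ := hc
        obtain ⟨c, hc⟩ := hin t ht
        have hM0' : (M : ℤ) ≠ 0 := by exact_mod_cast hM0.ne'
        have hMp : (0 : ℤ) < M := by exact_mod_cast hM0
        rw [hc, Int.mul_ediv_cancel_left _ hM0']
        have ht1 := hS (mem_filter.mp ht).1
        have ht2 := hS (mem_filter.mp ht0).1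
        rw [mem_Icc] at ht1 ht2
        have h5 : H < (H / M + 1) * M := by
          have := Nat.lt_div_mul_add (a := H) hM0
          nlinarith
        have h6 : (H : ℤ) < ((H / M : ℕ) + 1 : ℤ) * M := by exact_mod_cast h5
        have h7 : |(M : ℤ) * c| ≤ 2 * H := by rw [← hc, abs_le]; constructor <;> linarith
        rw [abs_mul, abs_of_pos hMp] at h7
        have h8 : (M : ℤ) * |c| < M * (2 * ((H / M : ℕ) + 1)) := by nlinarith
        have h9 := lt_of_mul_lt_mul_left h8 hMp.le
        rw [mem_Icc]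
        have h10 := abs_lt.mp h9
        push_cast
        push_cast at h10
        constructor <;> linarith
      rw [← card_image_of_injOn hinj]
      refine (card_le_card hsub).trans ?_
      rw [Int.card_Icc]
      omega

/-- Sum of inverse squares. -/
lemma sum_inv_sq (H : ℕ) : ∑ g ∈ Finset.Icc 1 H, (1 : ℝ) / (g : ℝ) ^ 2 ≤ 2 := by
  have h : ∀ H : ℕ, 1 ≤ H → ∑ g ∈ Finset.Icc 1 H, (1 : ℝ) / (g : ℝ) ^ 2 ≤ 2 - 1 / H := by
    intro H hH
    induction H, hH using Nat.le_induction with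
    | base => norm_num
    | succ m hm ih =>
      rw [Finset.sum_Icc_succ_top (by omega)]
      have hm0 : (0 : ℝ) < m := by exact_mod_cast hm
      have : (1 : ℝ) / ((m + 1 : ℕ) : ℝ) ^ 2 ≤ 1 / m - 1 / ((m + 1 : ℕ) : ℝ) := by
        push_cast
        rw [div_sub_div _ _ hm0.ne' (by positivity), div_le_div_iff₀ (by positivity) (by positivity)]
        nlinarith
      linarith
  rcases Nat.eq_zero_or_pos H with rfl | hH
  · simp
  · refine (h H hH).trans ?_
    have : (0 : ℝ) ≤ 1 / H := by positivity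
    linarith

/-- Multiples of `g` in an interval. -/
lemma card_multiples (H g : ℕ) (hg : 1 ≤ g) (hgH : g ≤ H) :
    ((((Finset.Icc (-(H : ℤ)) H).filter fun t => (g : ℤ) ∣ t).card : ℕ) : ℝ) ≤ 3 * (H : ℝ) / g := by
  have hsub : (Finset.Icc (-(H : ℤ)) H).filter (fun t => (g : ℤ) ∣ t) ⊆
      (Finset.Icc (-((H / g : ℕ) : ℤ)) ((H / g : ℕ) : ℤ)).image (fun c => (g : ℤ) * c) := by
    intro t ht
    rw [mem_filter, mem_Icc] at ht
    obtain ⟨c, rfl⟩ := ht.2
    rw [mem_image]
    refine ⟨c, ?_, rfl⟩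
    have hg0 : (0 : ℤ) < g := by exact_mod_cast hg
    have h1 : |(g : ℤ) * c| ≤ H := abs_le.mpr ht.1
    rw [abs_mul, abs_of_pos hg0] at h1
    have h2 : |c| ≤ (H : ℤ) / g := by
      rw [Int.le_ediv_iff_mul_le hg0]; linarith
    rw [mem_Icc, ← abs_le]
    exact_mod_cast h2
  have h1 := (card_le_card hsub).trans card_image_le
  rw [Int.card_Icc] at h1
  have h2 : ((Finset.Icc (-(H : ℤ)) H).filter fun t => (g : ℤ) ∣ t).card ≤ 2 * (H / g) + 1 := by
    refine h1.trans ?_
    omega
  have hg0 : (0 : ℝ) < g := by exact_mod_cast hg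
  have h3 : ((H / g : ℕ) : ℝ) ≤ (H : ℝ) / g := Nat.cast_div_le
  have h4 : (1 : ℝ) ≤ (H : ℝ) / g := by
    rw [le_div_iff₀ hg0, one_mul]; exact_mod_cast hgH
  calc ((((Finset.Icc (-(H : ℤ)) H).filter fun t => (g : ℤ) ∣ t).card : ℕ) : ℝ)
      ≤ 2 * ((H / g : ℕ) : ℝ) + 1 := by exact_mod_cast h2
    _ ≤ 2 * ((H : ℝ) / g) + (H : ℝ) / g := by linarith
    _ = 3 * (H : ℝ) / g := by ring

end LP

end Pool.Agent.Helper12.VW
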