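import Pool.Agent.Helper88.VW.LPAux

/-!
Polynomials of index at least two modulo many large primes, assuming the elimination polynomial
and the bound for the number of constant terms.
-/

open Finset

namespace Pool.Agent.Helper12.VW

namespace LP

/-- The greatest common divisor of the last three entries. -/
def gcd3 {m : ℕ} (x : Fin (m + 3) → ℤ) : ℕ :=
  Nat.gcd (x ⟨m + 2, by omega⟩).natAbs (Nat.gcd (x ⟨m + 1, by omega⟩).natAbs
    (x ⟨m, by omega⟩).natAbs)

/-- The vectors with last three entries divisible by `g`. -/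
lemma card_div3 (m H g : ℕ) (hg : 1 ≤ g) (hgH : g ≤ H) :
    ((((Fintype.piFinset fun _ : Fin (m + 3) => Finset.Icc (-(H : ℤ)) H).filter
      fun x => g ∣ gcd3 x).card : ℕ) : ℝ) ≤ 3 ^ (m + 3) * (H : ℝ) ^ (m + 3) / (g : ℝ) ^ 3 := by
  classical
  have hsub : ((Fintype.piFinset fun _ : Fin (m + 3) => Finset.Icc (-(H : ℤ)) H).filter
      fun x => g ∣ gcd3 x) ⊆ Fintype.piFinset fun i : Fin (m + 3) =>
        if m ≤ (i : ℕ) then (Finset.Icc (-(H : ℤ)) H).filter (fun t => (g : ℤ) ∣ t) else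
          Finset.Icc (-(H : ℤ)) H := by
    intro x hx
    rw [mem_filter, Fintype.mem_piFinset] at hx
    rw [Fintype.mem_piFinset]
    intro i
    have hd : ∀ i : Fin (m + 3), m ≤ (i : ℕ) → (g : ℤ) ∣ x i := by
      intro i hi
      rw [Int.natCast_dvd]
      have h1 := hx.2.trans (Nat.gcd_dvd_left _ _)
      have h2 := (hx.2.trans (Nat.gcd_dvd_right _ _)).trans (Nat.gcd_dvd_left _ _)
      have h3 := (hx.2.trans (Nat.gcd_dvd_right _ _)).trans (Nat.gcd_dvd_right _ _)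
      have h4 := i.2
      have h5 : i = ⟨m + 2, by omega⟩ ∨ i = ⟨m + 1, by omega⟩ ∨ i = ⟨m, by omega⟩ := by
        simp only [Fin.ext_iff]; omega
      rcases h5 with h5 | h5 | h5
      · rw [h5]; exact h1
      · rw [h5]; exact h2
      · rw [h5]; exact h3
    split_ifs with hi
    · exact mem_filter.mpr ⟨hx.1 i, hd i hi⟩
    · exact hx.1 i
  have hg0 : (0 : ℝ) < g := by exact_mod_cast hg
  have hH1 : (1 : ℝ) ≤ H := by exact_mod_cast hg.trans hgH
  have hfull : (((Finset.Icc (-(H : ℤ)) H).card : ℕ) : ℝ) ≤ 3 * H := by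
    rw [Int.card_Icc]
    have : ((H : ℤ) + 1 - -(H : ℤ)).toNat = 2 * H + 1 := by omega
    rw [this]
    push_cast
    linarith
  calc _ ≤ (((Fintype.piFinset fun i : Fin (m + 3) =>
        if m ≤ (i : ℕ) then (Finset.Icc (-(H : ℤ)) H).filter (fun t => (g : ℤ) ∣ t) else
          Finset.Icc (-(H : ℤ)) H).card : ℕ) : ℝ) := by exact_mod_cast card_le_card hsub
    _ = ∏ i : Fin (m + 3), (((if m ≤ (i : ℕ) then (Finset.Icc (-(H : ℤ)) H).filter
          (fun t => (g : ℤ) ∣ t) else Finset.Icc (-(H : ℤ)) H).card : ℕ) : ℝ) := by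
        rw [Fintype.card_piFinset]; push_cast; rfl
    _ ≤ ∏ i : Fin (m + 3), (if m ≤ (i : ℕ) then 3 * (H : ℝ) / g else 3 * H) := by
        apply prod_le_prod
        · intro i _; positivity
        · intro i _
          split_ifs with hi
          · exact card_multiples H g hg hgH
          · exact hfull
    _ = 3 ^ (m + 3) * (H : ℝ) ^ (m + 3) / (g : ℝ) ^ 3 := by
        rw [Fin.prod_univ_castSucc, Fin.prod_univ_castSucc, Fin.prod_univ_castSucc]
        have h0 : ∀ i : Fin m, (if m ≤ ((i.castSucc.castSucc.castSucc : Fin (m + 3)) : ℕ) then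
            3 * (H : ℝ) / g else 3 * H) = 3 * H := by
          intro i
          rw [if_neg]
          simp
        rw [Finset.prod_congr rfl fun i _ => h0 i, prod_const, card_univ, Fintype.card_fin]
        have h1 : m ≤ (((Fin.last m).castSucc.castSucc : Fin (m + 3)) : ℕ) := by simp
        have h2 : m ≤ (((Fin.last (m + 1)).castSucc : Fin (m + 3)) : ℕ) := by simp
        have h3 : m ≤ ((Fin.last (m + 2) : Fin (m + 3)) : ℕ) := by simp
        rw [if_pos h1, if_pos h2, if_pos h3]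
        field_simp
        ring

/-- The sum of the greatest common divisors. -/
lemma sum_gcd3 (m H : ℕ) :
    ∑ x ∈ (Fintype.piFinset fun _ : Fin (m + 3) => Finset.Icc (-(H : ℤ)) H).filter
      (fun x => x ⟨m + 2, by omega⟩ ≠ 0), (gcd3 x : ℝ) ≤ 2 * 3 ^ (m + 3) * (H : ℝ) ^ (m + 3) := by
  classical
  have h1 : ∀ x ∈ (Fintype.piFinset fun _ : Fin (m + 3) => Finset.Icc (-(H : ℤ)) H).filter
      (fun x => x ⟨m + 2, by omega⟩ ≠ 0),
      (gcd3 x : ℝ) ≤ ∑ g ∈ Finset.Icc 1 H, if g ∣ gcd3 x then (g : ℝ) else 0 := by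
    intro x hx
    rw [mem_filter, Fintype.mem_piFinset] at hx
    have hpos : 0 < (x ⟨m + 2, by omega⟩).natAbs := Int.natAbs_pos.mpr hx.2
    have h2 : gcd3 x ∣ (x ⟨m + 2, by omega⟩).natAbs := Nat.gcd_dvd_left _ _
    have h3 := Nat.le_of_dvd hpos h2
    have h4 := hx.1 ⟨m + 2, by omega⟩
    rw [mem_Icc] at h4
    have h5 : gcd3 x ∈ Finset.Icc 1 H := by
      rw [mem_Icc]
      exact ⟨Nat.pos_of_dvd_of_pos h2 hpos, by omega⟩
    calc (gcd3 x : ℝ) = if gcd3 x ∣ gcd3 x then (gcd3 x : ℝ) else 0 := by simp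
      _ ≤ _ := Finset.single_le_sum (f := fun g => if g ∣ gcd3 x then (g : ℝ) else 0)
          (fun g _ => by split_ifs <;> positivity) h5
  calc _ ≤ ∑ x ∈ (Fintype.piFinset fun _ : Fin (m + 3) => Finset.Icc (-(H : ℤ)) H).filter
          (fun x => x ⟨m + 2, by omega⟩ ≠ 0), ∑ g ∈ Finset.Icc 1 H,
          (if g ∣ gcd3 x then (g : ℝ) else 0) := sum_le_sum h1
    _ ≤ ∑ x ∈ (Fintype.piFinset fun _ : Fin (m + 3) => Finset.Icc (-(H : ℤ)) H),
        ∑ g ∈ Finset.Icc 1 H, (if g ∣ gcd3 x then (g : ℝ) else 0) := by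
        apply sum_le_sum_of_subset_of_nonneg (filter_subset _ _)
        intro x _ _
        exact sum_nonneg fun g _ => by split_ifs <;> positivity
    _ = ∑ g ∈ Finset.Icc 1 H, ∑ x ∈ (Fintype.piFinset fun _ : Fin (m + 3) =>
        Finset.Icc (-(H : ℤ)) H), (if g ∣ gcd3 x then (g : ℝ) else 0) := sum_comm
    _ ≤ ∑ g ∈ Finset.Icc 1 H, 3 ^ (m + 3) * (H : ℝ) ^ (m + 3) * (1 / (g : ℝ) ^ 2) := by
        apply sum_le_sum
        intro g hg
        rw [mem_Icc] at hg
        have hg0 : (0 : ℝ) < g := by exact_mod_cast hg.1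
        rw [← sum_filter, sum_const, nsmul_eq_mul]
        calc _ ≤ (3 ^ (m + 3) * (H : ℝ) ^ (m + 3) / (g : ℝ) ^ 3) * g :=
              mul_le_mul_of_nonneg_right (card_div3 m H g hg.1 hg.2) hg0.le
          _ = _ := by field_simp
    _ = 3 ^ (m + 3) * (H : ℝ) ^ (m + 3) * ∑ g ∈ Finset.Icc 1 H, (1 / (g : ℝ) ^ 2) := by
        rw [mul_sum]
    _ ≤ 3 ^ (m + 3) * (H : ℝ) ^ (m + 3) * 2 := by
        apply mul_le_mul_of_nonneg_left (sum_inv_sq H) (by positivity)
    _ = 2 * 3 ^ (m + 3) * (H : ℝ) ^ (m + 3) := by ring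

/-- The constant terms for one product of primes. -/
lemma card_constant (m H : ℕ)
    (h2 : ∀ (p : ℕ) (a : Fin (m + 3 + 1) → ℤ), m + 3 < p →
      (∃ i : Fin (m + 3 + 1), m + 3 ≤ (i : ℕ) + 2 ∧ ¬ ((p : ℤ) ∣ a i)) →
      {r : ZMod p | ∃ t : ℤ, (t : ZMod p) = r ∧ InInd (Function.update a 0 t) p 2}.ncard ≤ m + 3)
    (x : Fin (m + 3) → ℤ) (hx : x ⟨m + 2, by omega⟩ ≠ 0) (Q : Finset ℕ)
    (hQ : ∀ p ∈ Q, p.Prime ∧ m + 3 < p) (hQH : H ≤ ∏ p ∈ Q, p) (S : Finset ℤ)
    (hS : S ⊆ Finset.Icc (-(H : ℤ)) H)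
    (hSQ : ∀ t ∈ S, ∀ p ∈ Q, InInd (Fin.cons t x : Fin (m + 3 + 1) → ℤ) p 2) :
    S.card ≤ 7 * gcd3 x * (m + 3) ^ Q.card := by
  classical
  set Q' := Q.filter (fun p => ¬ p ∣ gcd3 x) with hQ'
  have hg0 : 0 < gcd3 x := Nat.pos_of_dvd_of_pos (Nat.gcd_dvd_left _ _) (Int.natAbs_pos.mpr hx)
  have h3 := card_residues H (m + 3) Q' (fun p hp => (hQ p (mem_filter.mp hp).1).1)
    (fun p => {r : ZMod p | ∃ t : ℤ, (t : ZMod p) = r ∧
      InInd (Function.update (Fin.cons 0 x : Fin (m + 3 + 1) → ℤ) 0 t) p 2}) ?_ S hS ?_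
  · have h4 : (∏ p ∈ Q.filter (fun p => p ∣ gcd3 x), p) * ∏ p ∈ Q', p = ∏ p ∈ Q, p :=
      prod_filter_mul_prod_filter_not _ _ _
    have h5 : ∏ p ∈ Q.filter (fun p => p ∣ gcd3 x), p ∣ gcd3 x := by
      apply Finset.prod_primes_dvd
      · intro p hp
        exact (hQ p (mem_filter.mp hp).1).1.prime
      · intro p hp
        exact (mem_filter.mp hp).2
    have h6 := Nat.le_of_dvd hg0 h5
    have h7 : H / ∏ p ∈ Q', p ≤ gcd3 x := by
      have hpos : 0 < ∏ p ∈ Q', p := prod_pos fun p hp => (hQ p (mem_filter.mp hp).1).1.pos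
      apply Nat.div_le_of_le_mul
      calc H ≤ ∏ p ∈ Q, p := hQH
        _ = (∏ p ∈ Q.filter (fun p => p ∣ gcd3 x), p) * ∏ p ∈ Q', p := h4.symm
        _ ≤ gcd3 x * ∏ p ∈ Q', p := Nat.mul_le_mul_right _ h6
        _ = _ := mul_comm _ _
    calc S.card ≤ (4 * (H / ∏ p ∈ Q', p) + 3) * (m + 3) ^ Q'.card := h3
      _ ≤ (7 * gcd3 x) * (m + 3) ^ Q.card := by
        apply Nat.mul_le_mul
        · omega
        · exact Nat.pow_le_pow_right (by omega) (card_le_card (filter_subset _ _))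
  · intro p hp
    rw [mem_filter] at hp
    apply h2 p _ (hQ p hp.1).2
    by_contra hcon
    push Not at hcon
    apply hp.2
    have h6 := hcon (⟨m + 2, by omega⟩ : Fin (m + 3)).succ (by simp)
    have h7 := hcon (⟨m + 1, by omega⟩ : Fin (m + 3)).succ (by simp)
    have h8 := hcon (⟨m, by omega⟩ : Fin (m + 3)).succ (by simp)
    rw [Fin.cons_succ, Int.natCast_dvd] at h6 h7 h8
    exact Nat.dvd_gcd h6 (Nat.dvd_gcd h7 h8)
  · intro t ht p hp
    refine ⟨t, rfl, ?_⟩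
    rw [Fin.update_cons_zero]
    exact hSQ t ht p (mem_filter.mp hp).1

end LP

open LP in
theorem large_primes_of (m : ℕ)
    (hE1 : ∃ E : MvPolynomial (Fin (m + 3)) ℤ, E ≠ 0 ∧
      ∀ (p : ℕ) (a : Fin (m + 3 + 1) → ℤ), m + 3 < p → ¬ ((p : ℤ) ∣ a (Fin.last (m + 3))) →
        InInd a p 2 → (p : ℤ) ∣ MvPolynomial.eval (fun i : Fin (m + 3) => a i.succ) E)
    (hE2 : ∀ (p : ℕ) (a : Fin (m + 3 + 1) → ℤ), m + 3 < p →
      (∃ i : Fin (m + 3 + 1), m + 3 ≤ (i : ℕ) + 2 ∧ ¬ ((p : ℤ) ∣ a i)) →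
      {r : ZMod p | ∃ t : ℤ, (t : ZMod p) = r ∧ InInd (Function.update a 0 t) p 2}.ncard ≤ m + 3)
    (η : ℝ) (hη : 0 < η) : ∃ C : ℝ, 0 < C ∧
    ∀ H : ℕ, 1 ≤ H →
      ({a ∈ (Box (m + 3) H : Set (Fin (m + 3 + 1) → ℤ)) | a (Fin.last (m + 3)) ≠ 0 ∧
        ∃ q : ℕ, Squarefree q ∧ (H : ℝ) ^ (1 + η) ≤ q ∧
          ∀ p ∈ q.primeFactors, m + 3 < p ∧ (H : ℝ) ^ η ≤ p ∧ InInd a p 2}.ncard : ℝ)
        ≤ C * (H : ℝ) ^ (m + 3) := by
  classical
  obtain ⟨E, hE0, hE⟩ := hE1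
  obtain ⟨CE, DE, hgrow⟩ := abs_eval_le E
  obtain ⟨K, hK⟩ := card_large_primes CE (DE + 1) η hη
  set C1 : ℝ := E.totalDegree * 3 ^ (m + 3) with hC1
  set C2 : ℝ := 2 ^ K * (7 * (m + 3) ^ K) * (2 * 3 ^ (m + 3)) with hC2
  refine ⟨3 ^ (m + 4) + C1 + C2, by positivity, fun H hH => ?_⟩
  set bad : Set (Fin (m + 3 + 1) → ℤ) := {a ∈ (Box (m + 3) H : Set (Fin (m + 3 + 1) → ℤ)) |
    a (Fin.last (m + 3)) ≠ 0 ∧ ∃ q : ℕ, Squarefree q ∧ (H : ℝ) ^ (1 + η) ≤ q ∧
      ∀ p ∈ q.primeFactors, m + 3 < p ∧ (H : ℝ) ^ η ≤ p ∧ InInd a p 2} with hbad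
  have hH1 : (1 : ℝ) ≤ H := by exact_mod_cast hH
  have hfin : bad.Finite := (Box (m + 3) H).finite_toSet.subset fun a ha => ha.1
  set F : Finset (Fin (m + 3 + 1) → ℤ) := hfin.toFinset with hF
  have hcardF : bad.ncard = F.card := Set.ncard_eq_toFinset_card _ hfin
  rw [hcardF]
  have hmemF : ∀ a, a ∈ F ↔ a ∈ bad := fun a => hfin.mem_toFinset
  have hIcc : (Finset.Icc (-(H : ℤ)) H).card = 2 * H + 1 := by
    rw [Int.card_Icc]; omega
  -- the case H = 1
  rcases Nat.lt_or_ge H 2 with hH2 | hH2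
  · have hH' : H = 1 := by omega
    subst hH'
    have h1 : F.card ≤ (Box (m + 3) 1).card := by
      apply card_le_card
      intro a ha
      exact ((hmemF a).mp ha).1
    have h2 : (Box (m + 3) 1).card = 3 ^ (m + 4) := by
      rw [Box, Fintype.card_piFinset, prod_const, hIcc, card_univ, Fintype.card_fin]
    rw [h2] at h1
    have h3 : (F.card : ℝ) ≤ 3 ^ (m + 4) := by exact_mod_cast h1
    have h4 : 0 ≤ C1 := by positivity
    have h5 : 0 ≤ C2 := by positivity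
    simp only [Nat.cast_one, one_pow, mul_one]
    linarith
  -- the vectors of the last coefficients
  set V : Finset (Fin (m + 3) → ℤ) := Fintype.piFinset fun _ : Fin (m + 3) =>
    Finset.Icc (-(H : ℤ)) H with hV
  have hmaps : ∀ a ∈ F, Fin.tail a ∈ V := by
    intro a ha
    have h1 := ((hmemF a).mp ha).1
    rw [hV, Fintype.mem_piFinset]
    intro i
    exact Fintype.mem_piFinset.mp h1 i.succ
  have hsum : (F.card : ℝ) = ∑ x ∈ V, ((F.filter fun a => Fin.tail a = x).card : ℝ) := by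
    rw [card_eq_sum_card_fiberwise hmaps]; push_cast; rfl
  -- fibres
  set Sx : (Fin (m + 3) → ℤ) → Finset ℤ := fun x =>
    (Finset.Icc (-(H : ℤ)) H).filter (fun t => (Fin.cons t x : Fin (m + 3 + 1) → ℤ) ∈ F) with hSx
  have hfib : ∀ x, (F.filter fun a => Fin.tail a = x).card ≤ (Sx x).card := by
    intro x
    apply card_le_card_of_injOn (fun a => a 0)
    · intro a ha
      rw [mem_coe, mem_filter] at ha
      rw [mem_coe, hSx, mem_filter]
      refine ⟨Fintype.mem_piFinset.mp ((hmemF a).mp ha.1).1 0, ?_⟩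
      rw [← ha.2]
      have : (Fin.cons (a 0) (Fin.tail a) : Fin (m + 3 + 1) → ℤ) = a := Fin.cons_self_tail a
      rw [this]
      exact ha.1
    · intro a ha b hb hab
      rw [mem_coe, mem_filter] at ha hb
      rw [← Fin.cons_self_tail a, ← Fin.cons_self_tail b, ha.2, hb.2]
      simp only at hab
      rw [hab]
  have hfib1 : ∀ x, (Sx x).card ≤ 2 * H + 1 := fun x =>
    (card_le_card (filter_subset _ _)).trans hIcc.le
  have hlast : ∀ (t : ℤ) (x : Fin (m + 3) → ℤ),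
      (Fin.cons t x : Fin (m + 3 + 1) → ℤ) (Fin.last (m + 3)) = x ⟨m + 2, by omega⟩ := by
    intro t x
    rw [← Fin.succ_last, Fin.cons_succ]
    rfl
  have hfib0 : ∀ x, x ⟨m + 2, by omega⟩ = 0 → (Sx x).card = 0 := by
    intro x hx
    rw [card_eq_zero, hSx, filter_eq_empty_iff]
    intro t _ ht
    have := ((hmemF _).mp ht).2.1
    rw [hlast] at this
    exact this hx
  have hfib2 : ∀ x ∈ V, x ⟨m + 2, by omega⟩ ≠ 0 → MvPolynomial.eval x E ≠ 0 →
      ((Sx x).card : ℝ) ≤ 2 ^ K * (7 * (m + 3) ^ K) * gcd3 x := by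
    intro x hxV hx0 hxE
    rw [hV, Fintype.mem_piFinset] at hxV
    have hxH : ∀ i, |x i| ≤ H := fun i => abs_le.mpr (mem_Icc.mp (hxV i))
    set N : ℕ := (x ⟨m + 2, by omega⟩ * MvPolynomial.eval x E).natAbs with hN
    have hN0 : N ≠ 0 := Int.natAbs_ne_zero.mpr (mul_ne_zero hx0 hxE)
    have hNle : N ≤ CE * H ^ (DE + 1) := by
      have h1 : (N : ℤ) ≤ CE * (H : ℤ) ^ (DE + 1) := by
        rw [hN, Int.natCast_natAbs, abs_mul]
        calc |x ⟨m + 2, by omega⟩| * |MvPolynomial.eval x E| ≤ H * (CE * (H : ℤ) ^ DE) :=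
              mul_le_mul (hxH _) (hgrow H hH x hxH) (abs_nonneg _) (by positivity)
          _ = _ := by ring
      exact_mod_cast h1
    set P : Finset ℕ := N.primeFactors.filter (fun p => (H : ℝ) ^ η ≤ p) with hP
    have hPK : P.card ≤ K := hK H hH2 N hN0 hNle P (filter_subset _ _)
      (fun p hp => (mem_filter.mp hp).2)
    set Good : Finset (Finset ℕ) := P.powerset.filter
      (fun Q => H ≤ ∏ p ∈ Q, p ∧ ∀ p ∈ Q, m + 3 < p) with hGood
    have hcover : Sx x ⊆ Good.biUnion fun Q => (Sx x).filter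
        (fun t => ∀ p ∈ Q, InInd (Fin.cons t x : Fin (m + 3 + 1) → ℤ) p 2) := by
      intro t ht
      have ht' := ht
      rw [hSx, mem_filter] at ht
      obtain ⟨hbox, hl0, q, hqs, hqH, hq⟩ := (hmemF _).mp ht.2
      rw [mem_biUnion]
      refine ⟨q.primeFactors, ?_, ?_⟩
      · rw [hGood, mem_filter, mem_powerset]
        have hprod : ∏ p ∈ q.primeFactors, p = q := Nat.prod_primeFactors_of_squarefree hqs
        refine ⟨?_, ?_, fun p hp => (hq p hp).1⟩
        · intro p hp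
          have hpp := Nat.prime_of_mem_primeFactors hp
          rw [hP, mem_filter, Nat.mem_primeFactors]
          refine ⟨⟨hpp, ?_, hN0⟩, (hq p hp).2.1⟩
          rw [hN, ← Int.natCast_dvd]
          by_cases hpl : (p : ℤ) ∣ x ⟨m + 2, by omega⟩
          · exact Dvd.dvd.mul_right hpl _
          · apply Dvd.dvd.mul_left
            have h1 := hE p (Fin.cons t x) (hq p hp).1 (by rw [hlast]; exact hpl) (hq p hp).2.2
            simpa only [Fin.cons_succ] using h1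
        · rw [hprod]
          have h1 : (H : ℝ) ≤ (H : ℝ) ^ (1 + η) := by
            calc (H : ℝ) = (H : ℝ) ^ (1 : ℝ) := (Real.rpow_one _).symm
              _ ≤ _ := Real.rpow_le_rpow_of_exponent_le hH1 (by linarith)
          exact_mod_cast h1.trans hqH
      · rw [mem_filter]
        exact ⟨ht', fun p hp => (hq p hp).2.2⟩
    have hone : ∀ Q ∈ Good, ((Sx x).filter
        (fun t => ∀ p ∈ Q, InInd (Fin.cons t x : Fin (m + 3 + 1) → ℤ) p 2)).card ≤
        7 * gcd3 x * (m + 3) ^ K := by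
      intro Q hQ
      rw [hGood, mem_filter, mem_powerset] at hQ
      refine (card_constant m H hE2 x hx0 Q ?_ hQ.2.1 _ ?_ ?_).trans ?_
      · intro p hp
        exact ⟨Nat.prime_of_mem_primeFactors (mem_filter.mp (hQ.1 hp)).1, hQ.2.2 p hp⟩
      · exact (filter_subset _ _).trans (filter_subset _ _)
      · intro t ht
        exact (mem_filter.mp ht).2
      · exact Nat.mul_le_mul_left _ (Nat.pow_le_pow_right (by omega)
          ((card_le_card hQ.1).trans hPK))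
    have h1 : (Sx x).card ≤ 2 ^ K * (7 * gcd3 x * (m + 3) ^ K) := by
      calc (Sx x).card ≤ _ := card_le_card hcover
        _ ≤ Good.card * (7 * gcd3 x * (m + 3) ^ K) := card_biUnion_le_card_mul _ _ _ hone
        _ ≤ _ := by
          apply Nat.mul_le_mul_right
          calc Good.card ≤ P.powerset.card := card_le_card (filter_subset _ _)
            _ = 2 ^ P.card := card_powerset _
            _ ≤ 2 ^ K := Nat.pow_le_pow_right (by norm_num) hPK
    calc ((Sx x).card : ℝ) ≤ ((2 ^ K * (7 * gcd3 x * (m + 3) ^ K) : ℕ) : ℝ) := by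
          exact_mod_cast h1
      _ = _ := by push_cast; ring
  -- the sum
  have hzero : ((V.filter fun x => MvPolynomial.eval x E = 0).card : ℝ) ≤
      E.totalDegree * (2 * H + 1 : ℝ) ^ (m + 2) := by
    have h1 := MvPolynomial.schwartz_zippel_totalDegree hE0 (Finset.Icc (-(H : ℤ)) H)
    have h2 := (NNRat.cast_le (K := ℝ)).mpr h1
    push_cast at h2
    rw [hIcc] at h2
    push_cast at h2
    have h3 : (0 : ℝ) < 2 * H + 1 := by positivity
    rw [div_le_div_iff₀ (by positivity) h3] at h2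
    have h4 : ((V.filter fun x => MvPolynomial.eval x E = 0).card : ℝ) * (2 * H + 1) ≤
        (E.totalDegree * (2 * H + 1 : ℝ) ^ (m + 2)) * (2 * H + 1) := by
      calc _ ≤ (E.totalDegree : ℝ) * (2 * H + 1) ^ (m + 3) := h2
        _ = _ := by ring
    exact le_of_mul_le_mul_right h4 h3
  have h3H : (2 * H + 1 : ℝ) ≤ 3 * H := by linarith
  rw [hsum]
  have hterm : ∀ x ∈ V, ((F.filter fun a => Fin.tail a = x).card : ℝ) ≤
      (if MvPolynomial.eval x E = 0 then (2 * H + 1 : ℝ) else 0) +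
      (if x ⟨m + 2, by omega⟩ ≠ 0 then 2 ^ K * (7 * (m + 3) ^ K) * (gcd3 x : ℝ) else 0) := by
    intro x hx
    have h1 : ((F.filter fun a => Fin.tail a = x).card : ℝ) ≤ (Sx x).card := by
      exact_mod_cast hfib x
    have h2 : ((Sx x).card : ℝ) ≤ 2 * H + 1 := by exact_mod_cast hfib1 x
    have h3 : 0 ≤ (2 : ℝ) ^ K * (7 * (m + 3) ^ K) * (gcd3 x : ℝ) := by positivity
    by_cases hE' : MvPolynomial.eval x E = 0
    · rw [if_pos hE']
      split_ifs <;> linarith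
    · rw [if_neg hE', zero_add]
      by_cases hx0 : x ⟨m + 2, by omega⟩ = 0
      · rw [if_neg (by simpa using hx0)]
        have := hfib0 x hx0
        rw [this] at h1
        simpa using h1
      · rw [if_pos hx0]
        exact h1.trans (hfib2 x hx hx0 hE')
  calc ∑ x ∈ V, ((F.filter fun a => Fin.tail a = x).card : ℝ)
      ≤ ∑ x ∈ V, ((if MvPolynomial.eval x E = 0 then (2 * H + 1 : ℝ) else 0) +
        (if x ⟨m + 2, by omega⟩ ≠ 0 then 2 ^ K * (7 * (m + 3) ^ K) * (gcd3 x : ℝ) else 0)) :=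
        sum_le_sum hterm
    _ = (V.filter fun x => MvPolynomial.eval x E = 0).card * (2 * H + 1 : ℝ) +
        2 ^ K * (7 * (m + 3) ^ K) * ∑ x ∈ V.filter (fun x => x ⟨m + 2, by omega⟩ ≠ 0),
          (gcd3 x : ℝ) := by
        rw [sum_add_distrib, ← sum_filter, ← sum_filter, sum_const, nsmul_eq_mul, mul_sum]
    _ ≤ (E.totalDegree * (2 * H + 1 : ℝ) ^ (m + 2)) * (2 * H + 1 : ℝ) +
        2 ^ K * (7 * (m + 3) ^ K) * (2 * 3 ^ (m + 3) * (H : ℝ) ^ (m + 3)) := by
        apply add_le_add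
        · exact mul_le_mul_of_nonneg_right hzero (by positivity)
        · exact mul_le_mul_of_nonneg_left (sum_gcd3 m H) (by positivity)
    _ = E.totalDegree * (2 * H + 1 : ℝ) ^ (m + 3) + C2 * (H : ℝ) ^ (m + 3) := by
        rw [hC2]; ring
    _ ≤ E.totalDegree * (3 * H : ℝ) ^ (m + 3) + C2 * (H : ℝ) ^ (m + 3) := by
        gcongr
    _ = (C1 + C2) * (H : ℝ) ^ (m + 3) := by rw [hC1, mul_pow]; ring
    _ ≤ (3 ^ (m + 4) + C1 + C2) * (H : ℝ) ^ (m + 3) := by
        apply mul_le_mul_of_nonneg_right _ (by positivity)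
        have : (0 : ℝ) ≤ 3 ^ (m + 4) := by positivity
        linarith

end Pool.Agent.Helper12.VW
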